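import Pool.Agent.H560.SI.StmB
import Pool.Agent.H97.SI.T2

/-!
# Almost primes with both parities in short intervals over `F_q[X]`, `q` even: assembly for an
abstract choice of the centres (adapted from the assembly of helper97)
-/

set_option autoImplicit false

namespace Pool.Agent.H181.SI

open Polynomial Filter
open scoped Classical
open Pool.Agent.H985.Chow (mob)
open Pool.Agent.H985.Par (Sft)
open Pool.Agent.H694.Typ (Mn Irn PU mem_Mn card_Mn mem_Irn mem_PU irn_ge)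
open Pool.Agent.H560.SI
open Pool.Agent.H97.SI (exp_large window fibres Tn)

/-- **Task T2K.** -/
theorem t2K (hw : S_wb) (hr : S_rtc) (hv : S_vl) (hc : S_cut)
    (hsw : Pool.Agent.H985.Par.S_sw) : S_t2K := by
  intro K _ _ _ θ hθ hK
  obtain ⟨lam, cs, hlam0, hcs, ns, Hs⟩ := hK
  obtain ⟨κw, cw, hκw, hcw, nw, Hw⟩ := hw K lam hlam0
  obtain ⟨A, hA⟩ := hsw K 1 (1 / 8) (by norm_num)
  obtain ⟨cv, hcv, Hv⟩ := hv K
  have hA1 : (0 : ℝ) < A + 1 := by positivity
  obtain ⟨κ, hκ0, k1, k2, k3⟩ : ∃ κ : ℝ, 0 < κ ∧ (A + 1) * κ ≤ lam / 16 ∧ (A + 1) * κ ≤ κw ∧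
      (A + 1) * κ ≤ cw / 4 := by
    refine ⟨min (lam / 16) (min κw (cw / 4)) / (A + 1), by positivity, ?_, ?_, ?_⟩ <;>
      rw [mul_div_cancel₀ _ hA1.ne']
    · exact min_le_left _ _
    · exact (min_le_right _ _).trans (min_le_left _ _)
    · exact (min_le_right _ _).trans (min_le_right _ _)
  have hA0 : (0 : ℝ) ≤ A := Nat.cast_nonneg A
  have hAκ : A * κ ≤ (A + 1) * κ := by nlinarith
  have hκA : κ ≤ (A + 1) * κ := by nlinarith
  set q : ℝ := (Fintype.card K : ℝ) with hq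
  have hq2 : 2 ≤ q := by
    have : 2 ≤ Fintype.card K := Fintype.one_lt_card
    rw [hq]
    exact_mod_cast this
  have hq0 : 0 < q := by linarith
  have hq1 : 1 < q := by linarith
  have hb1 : 1 < q ^ (cw / 2) := Real.one_lt_rpow hq1 (by positivity)
  have hb2 : 1 < q ^ κ := Real.one_lt_rpow hq1 hκ0
  obtain ⟨n1, hn1⟩ := exp_large hb1 (C := 16) (by norm_num) hcv 1
  obtain ⟨n2, hn2⟩ := exp_large hb2 (C := 8 * q) (by positivity) hcv 2
  obtain ⟨n4, hn4⟩ : ∃ n4 : ℕ, 1 / κ ≤ n4 := exists_nat_ge _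
  refine ⟨κ, cs * cv / 4, hκ0, by positivity, nw + ns + n1 + n2 + n4 + 1, ?_⟩
  intro n hn h hh hhn g σ hg hgd hσ
  have e1 := hn1 n (by omega)
  have e2 := hn2 n (by omega)
  have e4 : 1 ≤ κ * n := by
    have h5 : (n4 : ℝ) ≤ n := by exact_mod_cast (by omega : n4 ≤ n)
    have h6 : 1 / κ ≤ n := hn4.trans h5
    rw [div_le_iff₀ hκ0] at h6
    linarith
  have hn0 : (0 : ℝ) ≤ n := Nat.cast_nonneg n
  obtain ⟨N, u, L, c1, c8, c2', c3', c4, HC⟩ := Hs n (by omega)
  have c2 : u + 2 * L ≤ n := by omega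
  have c3 : ((u + 2 * L : ℕ) : ℝ) ≤ θ * n := by
    have e : u + 2 * L = 2 * L + u := by omega
    rw [e]
    exact c3'
  have c5 : L / 8 < u := by omega
  have hnpos' : (0 : ℝ) < n := by
    have : 0 < n := by omega
    exact_mod_cast this
  -- z
  obtain ⟨z, hz⟩ : ∃ z, z = ⌊κ * n⌋₊ := ⟨_, rfl⟩
  have hz1 : (z : ℝ) ≤ κ * n := by
    rw [hz]
    exact Nat.floor_le (by positivity)
  have hz2 : κ * n < z + 1 := by
    rw [hz]
    exact Nat.lt_floor_add_one _
  have hz3 : 1 ≤ z := by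
    rw [hz]
    exact Nat.le_floor (by exact_mod_cast e4)
  have hAzR : (A : ℝ) * z ≤ A * κ * n := by nlinarith
  have hAκn : A * κ * n ≤ (A + 1) * κ * n := mul_le_mul_of_nonneg_right hAκ hn0
  have k1n : (A + 1) * κ * n ≤ lam / 16 * n := mul_le_mul_of_nonneg_right k1 hn0
  have k2n : (A + 1) * κ * n ≤ κw * n := mul_le_mul_of_nonneg_right k2 hn0
  have k3n : (A + 1) * κ * n ≤ cw / 4 * n := mul_le_mul_of_nonneg_right k3 hn0
  have hκn : κ * n ≤ (A + 1) * κ * n := mul_le_mul_of_nonneg_right hκA hn0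
  have hL0 : 0 ≤ lam * n := by positivity
  have hLR : 16 * ((z : ℝ)) ≤ L := by linarith
  have hAzL : A * z ≤ L := by
    have : (A * z : ℝ) ≤ L := by linarith
    exact_mod_cast this
  have hzL : 16 * z ≤ L := by exact_mod_cast hLR
  have hzn : (z : ℝ) ≤ n := by
    have : z ≤ n := by omega
    exact_mod_cast this
  have hzu : z < u := by omega
  have hNn : N ≤ n := by omega
  have hNnR : (N : ℝ) ≤ n := by exact_mod_cast hNn
  -- V
  obtain ⟨V, hV⟩ : ∃ V : ℝ, V = ∏ P ∈ PU K z, (1 - 1 / (Fintype.card K : ℝ) ^ P.natDegree) :=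
    ⟨_, rfl⟩
  have hV1 : cv / z ≤ V := by
    rw [hV]
    exact Hv z hz3
  have hzpos : (0 : ℝ) < z := by
    have : 0 < z := by omega
    exact_mod_cast this
  have hV2 : cv / n ≤ V := le_trans (by gcongr) hV1
  have hV0 : 0 < V := lt_of_lt_of_le (by positivity) hV2
  have hqL : 0 < q ^ L := by positivity
  -- B
  have hB1 : 2 * ((2 : ℝ) * Fintype.card K) ^ (A * z) * q ^ ((L : ℝ) - cw * n) ≤
      1 / 8 * V * (Fintype.card K : ℝ) ^ L := by
    rw [← hq]
    have b1 : (2 * q) ^ (A * z) ≤ q ^ (cw / 2 * n) := by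
      have b2 : (2 * q) ^ (A * z) ≤ (q * q) ^ (A * z) := by gcongr
      refine b2.trans ?_
      rw [← sq, ← pow_mul, ← Real.rpow_natCast]
      refine Real.rpow_le_rpow_of_exponent_le hq1.le ?_
      push_cast
      linarith
    have b3 : q ^ ((L : ℝ) - cw * n) = q ^ L * (q ^ (cw / 2 * n))⁻¹ * (q ^ (cw / 2 * n))⁻¹ := by
      rw [← Real.rpow_natCast, ← Real.rpow_neg hq0.le, ← Real.rpow_add hq0, ← Real.rpow_add hq0]
      congr 1
      ring
    have b4 : q ^ (cw / 2 * n) = (q ^ (cw / 2)) ^ n := by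
      rw [← Real.rpow_natCast, ← Real.rpow_mul hq0.le]
    have b5 : 0 < q ^ (cw / 2 * n) := by positivity
    have b6 : 16 * (n : ℝ) ≤ cv * q ^ (cw / 2 * n) := by
      rw [b4]
      simpa using e1
    have b7 : 2 * (q ^ (cw / 2 * n))⁻¹ ≤ 1 / 8 * V := by
      have b8 : 2 * (q ^ (cw / 2 * n))⁻¹ ≤ 1 / 8 * (cv / n) := by
        rw [← div_eq_mul_inv, div_le_iff₀ b5]
        have b9 : 1 / 8 * (cv / n) * q ^ (cw / 2 * n) = (cv * q ^ (cw / 2 * n)) / (8 * n) := by
          field_simp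
        rw [b9, le_div_iff₀ (by positivity)]
        linarith
      linarith
    calc 2 * (2 * q) ^ (A * z) * q ^ ((L : ℝ) - cw * n)
        ≤ 2 * q ^ (cw / 2 * n) * q ^ ((L : ℝ) - cw * n) := by gcongr
      _ = (2 * (q ^ (cw / 2 * n))⁻¹) * q ^ L := by
          rw [b3]
          field_simp
      _ ≤ (1 / 8 * V) * q ^ L := by gcongr
      _ = _ := by ring
  have hB2 : (N : ℝ) * (Fintype.card K : ℝ) ^ (L - z) ≤ 1 / 8 * V * (Fintype.card K : ℝ) ^ L := by
    rw [← hq]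
    have b1 : q ^ L = q ^ (L - z) * q ^ z := by
      rw [← pow_add]
      congr 1
      omega
    have b2 : (q ^ κ) ^ n ≤ q ^ z * q := by
      rw [← pow_succ, ← Real.rpow_natCast, ← Real.rpow_natCast, ← Real.rpow_mul hq0.le]
      refine Real.rpow_le_rpow_of_exponent_le hq1.le ?_
      push_cast
      linarith
    have b3 : 8 * q * (n : ℝ) ^ 2 ≤ cv * (q ^ z * q) := e2.trans (by gcongr)
    have b4 : 8 * (n : ℝ) ^ 2 ≤ cv * q ^ z := by
      have : q * (8 * (n : ℝ) ^ 2) ≤ q * (cv * q ^ z) := by linarith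
      exact le_of_mul_le_mul_left this hq0
    have b5 : (N : ℝ) ≤ 1 / 8 * V * q ^ z := by
      have b6 : (n : ℝ) ≤ 1 / 8 * (cv / n) * q ^ z := by
        have b7 : 1 / 8 * (cv / n) * q ^ z = (cv * q ^ z) / (8 * n) := by
          field_simp
        rw [b7, le_div_iff₀ (by positivity)]
        linarith
      calc (N : ℝ) ≤ n := hNnR
        _ ≤ 1 / 8 * (cv / n) * q ^ z := b6
        _ ≤ 1 / 8 * V * q ^ z := by gcongr
    rw [b1]
    calc (N : ℝ) * q ^ (L - z) ≤ (1 / 8 * V * q ^ z) * q ^ (L - z) := by gcongr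
      _ = _ := by ring
  -- the shorter interval
  obtain ⟨p, hp⟩ : ∃ p : K[X] → Prop, ∀ f, p f ↔ (mob f = σ ∧ Sft z f) :=
    ⟨fun f => mob f = σ ∧ Sft z f, fun f => Iff.rfl⟩
  have main : ∀ g' : K[X], g'.Monic → g'.natDegree = n →
      cs * q ^ (u + L) * (1 / 4 * V * q ^ L) ≤ ((Itv K n (u + 2 * L) g').filter p).card := by
    intro g' hg' hgd'
    obtain ⟨m, hm, hmi, hmd, S, hSm, hS⟩ := HC g' hg' hgd'
    have hex : ∀ s : K[X], ∃ F : K[X], s ∈ S →
        F ∈ Itv K n (u + 2 * L) g' ∧ derivative (m * F) = s ^ 2 := by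
      intro s
      by_cases hs' : s ∈ S
      · obtain ⟨F, hF1, hF2⟩ := (hS s hs').2.2.2.2
        exact ⟨F, fun _ => ⟨hF1, hF2⟩⟩
      · exact ⟨0, fun h => absurd h hs'⟩
    choose Fs hFs using hex
    have hY : ∀ s ∈ S, 1 / 4 * V * q ^ L ≤
        ((Tn K L).filter (fun t => p (Fs s + m * t ^ 2))).card := by
      intro s hs'
      obtain ⟨s1, s2, s4, s5, -⟩ := hS s hs'
      obtain ⟨f1, f2⟩ := hFs s hs'
      unfold Itv at f1
      rw [Finset.mem_filter, mem_Mn] at f1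
      have hE : (Tn K L).filter (fun t => p (Fs s + m * t ^ 2)) = (Tn K L).filter
          (fun t => mob (Fs s + m * t ^ 2) = σ ∧ Sft z (Fs s + m * t ^ 2)) :=
        Finset.filter_congr fun t _ => hp _
      rw [hE]
      refine window hr hA (B := q ^ ((L : ℝ) - cw * n)) (u := u) (N := N) c2 c5 hz3 hzu hAzL hm hmi
        hmd s1 s2 s5 f1.1.1 f1.1.2 f2 (by positivity) ?_ hV hB1 hB2 hσ
      intro F' D L' t1 t2 t3 t4 t5 t6
      refine Hw n (by omega) N u L L' m s F' D c1 c8 (by omega) c4 hm hmi hmd s1 s2 s4 s5 t1 t2 t3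
        t4 ?_ t6
      have t7 : (D.natDegree : ℝ) ≤ (A * z : ℕ) := by exact_mod_cast t5
      push_cast at t7
      linarith
    have h3 := fibres (g := g') c2 hm hmd S Fs p
      (1 / 4 * V * q ^ L) (fun s hs' => hFs s hs') hY
    refine le_trans ?_ h3
    exact mul_le_mul_of_nonneg_right hSm (by positivity)
  have hh0 : u + 2 * L ≤ h := by
    have : ((u + 2 * L : ℕ) : ℝ) ≤ h := by linarith
    exact_mod_cast this
  have fin := hc K n (u + 2 * L) h g p
    (cs * q ^ (u + L) * (1 / 4 * V * q ^ L)) hh0 hhn hg hgd main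
  have hE : (Itv K n h g).filter p = (Itv K n h g).filter (fun f => mob f = σ ∧ Sft z f) :=
    Finset.filter_congr fun f _ => hp f
  rw [hE] at fin
  rw [← hz]
  refine le_trans ?_ fin
  rw [← hq]
  have hqh : q ^ h = q ^ (h - (u + 2 * L)) * (q ^ (u + L) * q ^ L) := by
    rw [← pow_add, ← pow_add]
    congr 1
    omega
  rw [hqh]
  have hX : 0 ≤ q ^ (h - (u + 2 * L)) * (q ^ (u + L) * q ^ L) := by positivity
  calc cs * cv / 4 * (q ^ (h - (u + 2 * L)) * (q ^ (u + L) * q ^ L)) / n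
      = (cs / 4 * (q ^ (h - (u + 2 * L)) * (q ^ (u + L) * q ^ L))) * (cv / n) := by ring
    _ ≤ (cs / 4 * (q ^ (h - (u + 2 * L)) * (q ^ (u + L) * q ^ L))) * V := by gcongr
    _ = _ := by ring

end Pool.Agent.H181.SI

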